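import Mathlib

set_option autoImplicit false

namespace Pool.Agent.Helper456.HD

open Finset

lemma choose_mono_half (n a b : ℕ) (hab : a ≤ b) (hb : 2 * b ≤ n) : n.choose a ≤ n.choose b := by
  induction b, hab using Nat.le_induction with
  | base => exact le_rfl
  | succ b hab ih =>
    refine (ih (by omega)).trans ?_
    exact Nat.choose_le_succ_of_lt_half_left (by omega)

/-- The binomial coefficient beats powers. -/
lemma choose_large (t a b c : ℕ) (K : ℝ) (hK : 0 ≤ K) : ∃ v0 : ℕ, ∀ v ≥ v0, ∀ m : ℕ,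
    t + b + 1 ≤ m → 2 * m ≤ v →
    K * (m : ℝ) ^ a * (v : ℝ) ^ b * Real.log v ^ c ≤ ((v - 2 * t).choose (m - t) : ℝ) := by
  -- eventual inequality
  have hev : ∀ B : ℝ, 0 ≤ B → ∃ v1 : ℕ, ∀ v ≥ v1, B * Real.log (v : ℝ) ^ c ≤ v := by
    intro B hB
    have h1 := (Real.isLittleO_pow_log_id_atTop (n := c)).comp_tendsto tendsto_natCast_atTop_atTop
    have h2 := h1.def (c := 1 / (B + 1)) (by positivity)
    rw [Filter.eventually_atTop] at h2
    obtain ⟨v1, h2⟩ := h2
    refine ⟨max v1 1, fun v hv => ?_⟩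
    have h3 := h2 v (le_trans (le_max_left _ _) hv)
    have hv1 : 1 ≤ v := le_trans (le_max_right _ _) hv
    simp only [Function.comp, id, Real.norm_eq_abs] at h3
    have hlog : 0 ≤ Real.log (v : ℝ) := Real.log_nonneg (by exact_mod_cast hv1)
    rw [abs_of_nonneg (pow_nonneg hlog _), abs_of_nonneg (by positivity : (0 : ℝ) ≤ (v : ℝ))] at h3
    have h4 : (B + 1) * Real.log (v : ℝ) ^ c ≤ v := by
      calc (B + 1) * Real.log (v : ℝ) ^ c ≤ (B + 1) * (1 / (B + 1) * v) :=
            mul_le_mul_of_nonneg_left h3 (by positivity)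
        _ = v := by field_simp
    have h5 : 0 ≤ Real.log (v : ℝ) ^ c := pow_nonneg hlog _
    nlinarith
  -- lower bound for the binomial coefficient
  have hlow : ∀ r v : ℕ, 4 * (t + r) ≤ v → (v : ℝ) ^ r / (2 ^ r * (r.factorial : ℝ))
      ≤ ((v - 2 * t).choose r : ℝ) := by
    intro r v hv
    have h1 := Nat.pow_le_choose (α := ℝ) r (v - 2 * t)
    refine le_trans ?_ h1
    rw [← div_div]
    refine div_le_div_of_nonneg_right ?_ (by positivity)
    rw [← div_pow]
    refine pow_le_pow_left₀ (by positivity) ?_ r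
    have h2 : v ≤ 2 * (v - 2 * t + 1 - r) := by omega
    have h3 : (v : ℝ) ≤ 2 * ((v - 2 * t + 1 - r : ℕ) : ℝ) := by exact_mod_cast h2
    linarith
  set M0 := t + a + b + 1 with hM0
  obtain ⟨v1, h1⟩ := hev (K * (M0 : ℝ) ^ a * (2 ^ (b + 1) * ((b + 1).factorial : ℝ))) (by positivity)
  obtain ⟨v2, h2⟩ := hev (K * (2 ^ (a + b + 1) * ((a + b + 1).factorial : ℝ))) (by positivity)
  refine ⟨v1 + v2 + 4 * (t + a + b + 1) + 1, fun v hv m hm hmv => ?_⟩
  have h1' := h1 v (by omega)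
  have h2' := h2 v (by omega)
  have hv1 : 1 ≤ v := by omega
  have hvr : (1 : ℝ) ≤ v := by exact_mod_cast hv1
  have hlog : 0 ≤ Real.log (v : ℝ) := Real.log_nonneg hvr
  have hlc : 0 ≤ Real.log (v : ℝ) ^ c := pow_nonneg hlog _
  rcases Nat.le_total m M0 with h | h
  · -- small m
    have hc : ((v - 2 * t).choose (b + 1) : ℝ) ≤ ((v - 2 * t).choose (m - t) : ℝ) := by
      exact_mod_cast choose_mono_half _ _ _ (by omega) (by omega)
    refine le_trans ?_ hc
    refine le_trans ?_ (hlow (b + 1) v (by omega))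
    rw [le_div_iff₀ (by positivity)]
    have hm' : (m : ℝ) ^ a ≤ (M0 : ℝ) ^ a :=
      pow_le_pow_left₀ (by positivity) (by exact_mod_cast h) a
    calc K * (m : ℝ) ^ a * (v : ℝ) ^ b * Real.log v ^ c * (2 ^ (b + 1) * ((b + 1).factorial : ℝ))
        ≤ K * (M0 : ℝ) ^ a * (v : ℝ) ^ b * Real.log v ^ c
            * (2 ^ (b + 1) * ((b + 1).factorial : ℝ)) := by gcongr
      _ = (K * (M0 : ℝ) ^ a * (2 ^ (b + 1) * ((b + 1).factorial : ℝ)) * Real.log v ^ c)
            * (v : ℝ) ^ b := by ring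
      _ ≤ v * (v : ℝ) ^ b := mul_le_mul_of_nonneg_right h1' (by positivity)
      _ = (v : ℝ) ^ (b + 1) := by ring
  · -- large m
    have hc : ((v - 2 * t).choose (a + b + 1) : ℝ) ≤ ((v - 2 * t).choose (m - t) : ℝ) := by
      exact_mod_cast choose_mono_half _ _ _ (by omega) (by omega)
    refine le_trans ?_ hc
    refine le_trans ?_ (hlow (a + b + 1) v (by omega))
    rw [le_div_iff₀ (by positivity)]
    have hm' : (m : ℝ) ^ a ≤ (v : ℝ) ^ a :=
      pow_le_pow_left₀ (by positivity) (by exact_mod_cast (by omega : m ≤ v)) a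
    calc K * (m : ℝ) ^ a * (v : ℝ) ^ b * Real.log v ^ c
          * (2 ^ (a + b + 1) * ((a + b + 1).factorial : ℝ))
        ≤ K * (v : ℝ) ^ a * (v : ℝ) ^ b * Real.log v ^ c
            * (2 ^ (a + b + 1) * ((a + b + 1).factorial : ℝ)) := by gcongr
      _ = (K * (2 ^ (a + b + 1) * ((a + b + 1).factorial : ℝ)) * Real.log v ^ c)
            * (v : ℝ) ^ (a + b) := by ring
      _ ≤ v * (v : ℝ) ^ (a + b) := mul_le_mul_of_nonneg_right h2' (by positivity)
      _ = (v : ℝ) ^ (a + b + 1) := by ring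

end Pool.Agent.Helper456.HD
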