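import Mathlib
import Pool.Agent.Helper456.HC.Van
import Pool.Agent.Helper456.HC.Spread

set_option autoImplicit false

namespace Pool.Agent.Helper456.HD

open Finset Pool.Agent.Helper456.HC

section spread

variable {α A : Type*} [DecidableEq α] [SeminormedAddCommGroup A]

lemma sum_card_sdiff2 (V : Finset α) (k : ℕ) (S : Finset α) (hS : S ∈ V.powersetCard k) :
    V.card * ∑ S' ∈ V.powersetCard k, (S \ S').card = k * (V.card - k) * V.card.choose k := by
  rw [Finset.mem_powersetCard] at hS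
  have h1 : ∑ S' ∈ V.powersetCard k, (S \ S').card
      = ∑ x ∈ S, ((V.powersetCard k).filter (fun S' => x ∉ S')).card := by
    simp_rw [Finset.card_filter]
    rw [Finset.sum_comm]
    refine Finset.sum_congr rfl fun S' _ => ?_
    rw [← Finset.card_filter]
    congr 1
    ext x
    simp [Finset.mem_sdiff]
  have h2 : ∀ x ∈ S, ((V.powersetCard k).filter (fun S' => x ∉ S')).card
      = (V.card - 1).choose k := by
    intro x hx
    have : (V.powersetCard k).filter (fun S' => x ∉ S') = (V.erase x).powersetCard k := by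
      ext S'
      rw [Finset.mem_filter, Finset.mem_powersetCard, Finset.mem_powersetCard]
      constructor
      · rintro ⟨⟨h1, h2⟩, h3⟩
        exact ⟨fun y hy => Finset.mem_erase.2 ⟨fun h => h3 (h ▸ hy), h1 hy⟩, h2⟩
      · rintro ⟨h1, h2⟩
        exact ⟨⟨h1.trans (Finset.erase_subset _ _), h2⟩,
          fun h => (Finset.notMem_erase x V) (h1 h)⟩
    rw [this, Finset.card_powersetCard, Finset.card_erase_of_mem (hS.1 hx)]
  rw [h1, Finset.sum_congr rfl h2, Finset.sum_const, smul_eq_mul, hS.2]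
  have hkV : k ≤ V.card := hS.2 ▸ Finset.card_le_card hS.1
  rcases Nat.eq_zero_or_pos V.card with h0 | h0
  · have : k = 0 := by omega
    subst this
    simp [h0]
  · obtain ⟨n, hn⟩ : ∃ n, V.card = n + 1 := ⟨V.card - 1, by omega⟩
    rw [hn, Nat.add_sub_cancel]
    have h3 := Nat.choose_mul_succ_eq n k
    calc (n + 1) * (k * n.choose k) = k * (n.choose k * (n + 1)) := by ring
      _ = k * ((n + 1).choose k * (n + 1 - k)) := by rw [h3]
      _ = k * (n + 1 - k) * (n + 1).choose k := by ring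

lemma sum_card_sdiff_le (V : Finset α) (k : ℕ) (S : Finset α) (hS : S ∈ V.powersetCard k)
    (D : ℝ) (hD0 : 0 ≤ D) (hD : (k : ℝ) * ((V.card : ℝ) - k) ≤ D * V.card) :
    ∑ S' ∈ V.powersetCard k, ((S \ S').card : ℝ) ≤ D * V.card.choose k := by
  have h := sum_card_sdiff2 V k S hS
  have hS' := hS
  rw [Finset.mem_powersetCard] at hS
  have hkV : k ≤ V.card := hS.2 ▸ Finset.card_le_card hS.1
  rcases Nat.eq_zero_or_pos V.card with h0 | h0
  · have hV : V = ∅ := Finset.card_eq_zero.1 h0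
    have hS0 : S = ∅ := by
      have := hS.1; rw [hV] at this; exact Finset.subset_empty.1 this
    have : ∑ S' ∈ V.powersetCard k, ((S \ S').card : ℝ) = 0 := by
      refine Finset.sum_eq_zero fun S' _ => ?_
      rw [hS0]; simp
    rw [this]; positivity
  · have h1 : (V.card : ℝ) * ∑ S' ∈ V.powersetCard k, ((S \ S').card : ℝ)
        = (k : ℝ) * ((V.card : ℝ) - k) * V.card.choose k := by
      have h2 : (V.card : ℝ) - k = ((V.card - k : ℕ) : ℝ) := by rw [Nat.cast_sub hkV]
      rw [h2]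
      exact_mod_cast h
    have h0' : (0 : ℝ) < V.card := by exact_mod_cast h0
    refine le_of_mul_le_mul_left ?_ h0'
    rw [h1]
    calc (k : ℝ) * ((V.card : ℝ) - k) * V.card.choose k
        ≤ (D * V.card) * V.card.choose k := mul_le_mul_of_nonneg_right hD (by positivity)
      _ = V.card * (D * V.card.choose k) := by ring

/-- Averaging. -/
lemma avg2 (V : Finset α) (k : ℕ) (F : Finset α → A) (β ρ E D : ℝ) (hβ : 0 ≤ β) (hρ : 0 ≤ ρ)
    (hD0 : 0 ≤ D) (hD : (k : ℝ) * ((V.card : ℝ) - k) ≤ D * V.card)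
    (h : ∀ S ∈ V.powersetCard k, ∀ S' ∈ V.powersetCard k, (S \ S').card = 1 →
      ‖F S - F S'‖ ≤ β)
    (hE : ∑ S ∈ V.powersetCard k, ‖F S‖ ^ 2 ≤ E) (hEρ : E ≤ ρ ^ 2 * V.card.choose k)
    (S : Finset α) (hS : S ∈ V.powersetCard k) :
    ‖F S‖ ≤ ρ + β * D := by
  have hd := dist_le V k F β h
  set C : ℝ := (V.card.choose k : ℝ) with hC
  have hCpos : 0 < C := by
    rw [hC]
    have : 0 < V.card.choose k := by
      rw [← Finset.card_powersetCard]; exact Finset.card_pos.2 ⟨S, hS⟩
    exact_mod_cast this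
  have h1 : C * ‖F S‖ ≤ ∑ S' ∈ V.powersetCard k, (‖F S'‖ + ((S \ S').card : ℝ) * β) := by
    have : C * ‖F S‖ = ∑ S' ∈ V.powersetCard k, ‖F S‖ := by
      rw [Finset.sum_const, Finset.card_powersetCard, nsmul_eq_mul]
    rw [this]
    refine Finset.sum_le_sum fun S' hS' => ?_
    have h2 := hd _ S hS S' hS' rfl
    have h3 : F S = F S' + (F S - F S') := by abel
    calc ‖F S‖ = ‖F S' + (F S - F S')‖ := by rw [← h3]
      _ ≤ ‖F S'‖ + ‖F S - F S'‖ := norm_add_le _ _
      _ ≤ _ := by linarith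
  rw [Finset.sum_add_distrib, ← Finset.sum_mul] at h1
  have h2 : ∑ S' ∈ V.powersetCard k, ‖F S'‖ ≤ ρ * C := by
    have h3 := sq_sum_le_card_mul_sum_sq (s := V.powersetCard k) (f := fun S' => ‖F S'‖)
    rw [Finset.card_powersetCard] at h3
    have h4 : (∑ S' ∈ V.powersetCard k, ‖F S'‖) ^ 2 ≤ (ρ * C) ^ 2 := by
      calc (∑ S' ∈ V.powersetCard k, ‖F S'‖) ^ 2 ≤ C * ∑ S' ∈ V.powersetCard k, ‖F S'‖ ^ 2 := h3
        _ ≤ C * E := mul_le_mul_of_nonneg_left hE hCpos.le
        _ ≤ C * (ρ ^ 2 * C) := mul_le_mul_of_nonneg_left hEρ hCpos.le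
        _ = (ρ * C) ^ 2 := by ring
    exact (abs_le_of_sq_le_sq' h4 (by positivity)).2
  have h3 : ∑ S' ∈ V.powersetCard k, ((S \ S').card : ℝ) ≤ D * C :=
    sum_card_sdiff_le V k S hS D hD0 hD
  have h4 : C * ‖F S‖ ≤ C * (ρ + β * D) := by
    calc C * ‖F S‖ ≤ _ := h1
      _ ≤ ρ * C + D * C * β := add_le_add h2 (mul_le_mul_of_nonneg_right h3 hβ)
      _ = C * (ρ + β * D) := by ring
  exact le_of_mul_le_mul_left h4 hCpos

/-- The spreading lemma. -/
theorem spread2 (ρ D : ℝ) (hρ : 0 ≤ ρ) (hD : 0 ≤ D) : ∀ (s n j : ℕ) (V : Finset α)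
    (F : Finset α → A) (E : ℝ), V.card = n + 2 * s →
    ((j + s : ℕ) : ℝ) * ((V.card : ℝ) - (j + s : ℕ)) ≤ D * V.card → 0 ≤ E →
    Van (s + 1) (j + s) V F → ∑ S ∈ V.powersetCard (j + s), ‖F S‖ ^ 2 ≤ E →
    2 ^ s * E ≤ ρ ^ 2 * n.choose j →
    ∀ S ∈ V.powersetCard (j + s), ‖F S‖ ≤ ρ * ∑ i ∈ Finset.range (s + 1), D ^ i := by
  -- comparison of binomial coefficients
  have hch : ∀ s n j : ℕ, n.choose j ≤ (n + 2 * s).choose (j + s) := by
    intro s
    induction s with
    | zero => intro n j; simp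
    | succ s ih =>
      intro n j
      refine (ih n j).trans ?_
      have e1 : n + 2 * (s + 1) = (n + 2 * s + 1) + 1 := by ring
      have e2 : j + (s + 1) = (j + s) + 1 := by ring
      rw [e1, e2, Nat.choose_succ_succ]
      exact (Nat.choose_le_choose _ (Nat.le_succ _)).trans (Nat.le_add_right _ _)
  intro s
  induction s with
  | zero =>
    intro n j V F E hV hVD hE hF hsum hEρ S hS
    have h0 : ∀ S ∈ V.powersetCard (j + 0), ∀ S' ∈ V.powersetCard (j + 0), (S \ S').card = 1 →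
        ‖F S - F S'‖ ≤ 0 := by
      intro S hS S' hS' h1
      cases j with
      | zero =>
        simp only [Nat.add_zero, Finset.powersetCard_zero, Finset.mem_singleton] at hS hS'
        rw [hS, hS'] at h1; simp at h1
      | succ j =>
        obtain ⟨a, b, R, ha, hb, hab, hR, rfl, rfl⟩ := swap_form V j S S' hS hS' h1
        have h2 : F (insert a R) - F (insert b R) = 0 := hF a ha b hb hab R hR
        rw [h2, norm_zero]
    have h1 := avg2 V (j + 0) F 0 ρ E D le_rfl hρ hD hVD h0 hsum (by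
      have h2 := hch 0 n j
      simp only [Nat.mul_zero, Nat.add_zero, pow_zero, one_mul] at hV hEρ ⊢
      rw [hV]; exact hEρ) S hS
    simpa using h1
  | succ s ih =>
    intro n j V F E hV hVD hE hF hsum hEρ S hS
    have h0 : ∀ S ∈ V.powersetCard (j + (s + 1)), ∀ S' ∈ V.powersetCard (j + (s + 1)),
        (S \ S').card = 1 → ‖F S - F S'‖ ≤ ρ * ∑ i ∈ Finset.range (s + 1), D ^ i := by
      intro S hS S' hS' h1
      obtain ⟨a, b, R, ha, hb, hab, hR, rfl, rfl⟩ := swap_form V (j + s) S S' hS hS' h1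
      have hba : b ∈ V.erase a := Finset.mem_erase.2 ⟨hab.symm, hb⟩
      have hcard : ((V.erase a).erase b).card = n + 2 * s := by
        rw [Finset.card_erase_of_mem hba, Finset.card_erase_of_mem ha]; omega
      refine ih n j ((V.erase a).erase b) (fun R => F (insert a R) - F (insert b R)) (2 * E) hcard
        ?_ (by positivity) (hF a ha b hb hab) ?_ ?_ R hR
      · rw [hcard]
        rw [hV] at hVD
        exact step_ineq D hD n s j hVD
      · refine (two_sum V (j + s) F a b ha hb hab).trans ?_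
        have e2 : j + (s + 1) = (j + s) + 1 := by ring
        rw [e2] at hsum
        linarith
      · calc (2 : ℝ) ^ s * (2 * E) = 2 ^ (s + 1) * E := by ring
          _ ≤ _ := hEρ
    have hβ : 0 ≤ ρ * ∑ i ∈ Finset.range (s + 1), D ^ i := by positivity
    have h1 := avg2 V (j + (s + 1)) F (ρ * ∑ i ∈ Finset.range (s + 1), D ^ i) ρ E D hβ hρ hD hVD
      h0 hsum
      (by
        have h2 : E ≤ 2 ^ (s + 1) * E := by
          have : (1 : ℝ) ≤ 2 ^ (s + 1) := one_le_pow₀ (by norm_num)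
          nlinarith
        refine h2.trans (hEρ.trans ?_)
        rw [hV]
        refine mul_le_mul_of_nonneg_left ?_ (sq_nonneg ρ)
        exact_mod_cast hch (s + 1) n j) S hS
    refine h1.trans ?_
    rw [Finset.sum_range_succ' _ (s + 1)]
    simp only [pow_succ, pow_zero, one_mul]
    rw [← Finset.sum_mul]
    linarith
where
  step_ineq (D : ℝ) (hD : 0 ≤ D) (n s j : ℕ)
      (h : ((j + (s + 1) : ℕ) : ℝ) * (((n + 2 * (s + 1) : ℕ) : ℝ) - (j + (s + 1) : ℕ))
        ≤ D * (n + 2 * (s + 1) : ℕ)) :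
      ((j + s : ℕ) : ℝ) * (((n + 2 * s : ℕ) : ℝ) - (j + s : ℕ)) ≤ D * (n + 2 * s : ℕ) := by
    push_cast at h ⊢
    set a : ℝ := (j : ℝ) + s with ha
    set m : ℝ := (n : ℝ) + 2 * s with hm
    have hm0 : 0 ≤ m := by positivity
    have h' : (a + 1) * (m + 2 - (a + 1)) ≤ D * (m + 2) := by
      have e1 : (a + 1) * (m + 2 - (a + 1)) = ((j : ℝ) + (s + 1)) * ((n : ℝ) + 2 * (s + 1) - (j + (s + 1))) := by
        rw [ha, hm]; ring
      have e2 : D * (m + 2) = D * ((n : ℝ) + 2 * (s + 1)) := by rw [hm]; ring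
      rw [e1, e2]; exact h
    rcases le_total (2 * D) (m + 1) with h1 | h1
    · nlinarith
    · nlinarith [sq_nonneg (m - 2 * a)]
  swap_form (V : Finset α) (k : ℕ) (S S' : Finset α) (hS : S ∈ V.powersetCard (k + 1))
      (hS' : S' ∈ V.powersetCard (k + 1)) (h : (S \ S').card = 1) :
      ∃ a b R, a ∈ V ∧ b ∈ V ∧ a ≠ b ∧ R ∈ ((V.erase a).erase b).powersetCard k ∧
        insert a R = S ∧ insert b R = S' := by
    rw [Finset.mem_powersetCard] at hS hS'
    have hcomm : (S' \ S).card = (S \ S').card := by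
      rw [Finset.card_sdiff, Finset.card_sdiff, hS.2, hS'.2, Finset.inter_comm]
    obtain ⟨a, ha⟩ := Finset.card_eq_one.1 h
    obtain ⟨b, hb⟩ := Finset.card_eq_one.1 (hcomm.trans h)
    have ha' : a ∈ S ∧ a ∉ S' := Finset.mem_sdiff.1 (ha ▸ Finset.mem_singleton_self a)
    have hb' : b ∈ S' ∧ b ∉ S := Finset.mem_sdiff.1 (hb ▸ Finset.mem_singleton_self b)
    have h1 : insert a (S ∩ S') = S := by
      have := Finset.sdiff_union_inter S S'
      rw [ha] at this
      rw [Finset.insert_eq]; exact this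
    have h2 : insert b (S ∩ S') = S' := by
      have := Finset.sdiff_union_inter S' S
      rw [hb, Finset.inter_comm] at this
      rw [Finset.insert_eq]; exact this
    refine ⟨a, b, S ∩ S', hS.1 ha'.1, hS'.1 hb'.1, fun h => hb'.2 (h ▸ ha'.1), ?_, h1, h2⟩
    rw [Finset.mem_powersetCard]
    constructor
    · intro x hx
      rw [Finset.mem_inter] at hx
      rw [Finset.mem_erase, Finset.mem_erase]
      exact ⟨fun h => hb'.2 (h ▸ hx.1), fun h => ha'.2 (h ▸ hx.2), hS.1 hx.1⟩
    · have h3 : a ∉ S ∩ S' := fun h => ha'.2 (Finset.mem_inter.1 h).2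
      have h4 := hS.2
      rw [← h1, Finset.card_insert_of_notMem h3] at h4
      omega
  two_sum (V : Finset α) (k : ℕ) (F : Finset α → A) (a b : α) (ha : a ∈ V) (hb : b ∈ V)
      (hab : a ≠ b) :
      ∑ R ∈ ((V.erase a).erase b).powersetCard k, ‖F (insert a R) - F (insert b R)‖ ^ 2
        ≤ 2 * ∑ S ∈ V.powersetCard (k + 1), ‖F S‖ ^ 2 := by
    set P := ((V.erase a).erase b).powersetCard k with hP
    have h1 : ∀ R ∈ P, ‖F (insert a R) - F (insert b R)‖ ^ 2
        ≤ 2 * (‖F (insert a R)‖ ^ 2 + ‖F (insert b R)‖ ^ 2) := by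
      intro R _
      have h2 := norm_sub_le (F (insert a R)) (F (insert b R))
      have h3 := norm_nonneg (F (insert a R) - F (insert b R))
      have h4 : ‖F (insert a R) - F (insert b R)‖ ^ 2
          ≤ (‖F (insert a R)‖ + ‖F (insert b R)‖) ^ 2 := pow_le_pow_left₀ h3 h2 2
      nlinarith [sq_nonneg (‖F (insert a R)‖ - ‖F (insert b R)‖)]
    refine (Finset.sum_le_sum h1).trans ?_
    rw [← Finset.mul_sum, Finset.sum_add_distrib]
    refine mul_le_mul_of_nonneg_left ?_ (by norm_num)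
    have hinj : ∀ c : α, (∀ R ∈ P, c ∉ R) → Set.InjOn (fun R : Finset α => insert c R) (P : Set (Finset α)) := by
      intro c hc R hR R' hR' heq
      have := congrArg (fun S : Finset α => S.erase c) heq
      simp only at this
      rwa [Finset.erase_insert (hc R hR), Finset.erase_insert (hc R' hR')] at this
    have hPa : ∀ R ∈ P, a ∉ R := fun R hR => (ins_mem ha hb hab hR).2.2.1
    have hPb : ∀ R ∈ P, b ∉ R := fun R hR => (ins_mem ha hb hab hR).2.2.2
    rw [← Finset.sum_image (f := fun S => ‖F S‖ ^ 2) (g := fun R => insert a R) (hinj a hPa),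
      ← Finset.sum_image (f := fun S => ‖F S‖ ^ 2) (g := fun R => insert b R) (hinj b hPb),
      ← Finset.sum_union]
    · refine Finset.sum_le_sum_of_subset_of_nonneg ?_ (fun _ _ _ => sq_nonneg _)
      intro S hS
      rw [Finset.mem_union, Finset.mem_image, Finset.mem_image] at hS
      rcases hS with ⟨R, hR, rfl⟩ | ⟨R, hR, rfl⟩
      · exact (ins_mem ha hb hab hR).1
      · exact (ins_mem ha hb hab hR).2.1
    · rw [Finset.disjoint_left]
      intro S hS hS'
      rw [Finset.mem_image] at hS hS'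
      obtain ⟨R, hR, rfl⟩ := hS
      obtain ⟨R', hR', heq⟩ := hS'
      have : a ∈ insert b R' := heq ▸ Finset.mem_insert_self a R
      rcases Finset.mem_insert.1 this with h | h
      · exact hab h
      · exact hPa R' hR' h

end spread

end Pool.Agent.Helper456.HD
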