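import Mathlib
import Pool.Agent.Helper456.HC.Basic
import Pool.Agent.Helper456.HC.Van
import Pool.Agent.Helper456.HC.Fourier
import Pool.Agent.Helper456.HC.Main
import Pool.Agent.Helper456.HD.Spread2

set_option autoImplicit false

namespace Pool.Agent.Helper456.HD

open Finset Pool.Agent.Helper456.HC

/-- The incidence matrix for `N` colours. -/
def MN {v : ℕ} (N k t : ℕ) (j : {S : Finset (Fin v) // S.card = k}) (c : Fin N)
    (i : {T : Finset (Fin v) // T.card = t} × Fin N) : ℤ :=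
  if i.1.1 ⊆ j.1 then ((if c = i.2 then (N : ℤ) else 0) - 1) else 0

lemma colour_of_choice {v : ℕ} (N k t : ℕ) (hN : 1 ≤ N) (htk : t ≤ k) (Q : ℕ)
    (hQ : Q = N * (v - t).choose (k - t) + 1)
    (g : {S : Finset (Fin v) // S.card = k} → Fin N)
    (hg : ∀ i, (Q : ℤ) ∣ ∑ j, MN N k t j (g j) i) :
    ∃ f : Finset (Fin v) → Fin N, ∀ c : Fin N, ∀ T : Finset (Fin v), T.card = t →
      N * ((Finset.powersetCard k (Finset.univ : Finset (Fin v))).filter
        (fun B => f B = c ∧ T ⊆ B)).card = (v - t).choose (k - t) := by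
  classical
  refine ⟨fun S => if h : S.card = k then g ⟨S, h⟩ else ⟨0, hN⟩, ?_⟩
  intro c T hT
  set f : Finset (Fin v) → Fin N := fun S => if h : S.card = k then g ⟨S, h⟩ else ⟨0, hN⟩ with hf
  set P := (Finset.powersetCard k (Finset.univ : Finset (Fin v))).filter (fun B => T ⊆ B) with hP
  have hPc : P.card = (v - t).choose (k - t) := by
    rw [hP, card_sup _ _ _ (Finset.subset_univ T) (by omega), Finset.card_univ,
      Fintype.card_fin, hT]
  have h1 := hg (⟨T, hT⟩, c)
  have h2 : ∑ j : {S : Finset (Fin v) // S.card = k}, MN N k t j (g j) (⟨T, hT⟩, c)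
      = ∑ S ∈ P, ((if f S = c then (N : ℤ) else 0) - 1) := by
    rw [hP, Finset.sum_filter]
    symm
    refine Finset.sum_bij' (fun S hS => (⟨S, (Finset.mem_powersetCard.1 hS).2⟩ :
      {S : Finset (Fin v) // S.card = k})) (fun j _ => j.1) ?_ ?_ ?_ ?_ ?_
    · intro S hS; exact Finset.mem_univ _
    · intro j _; rw [Finset.mem_powersetCard]; exact ⟨Finset.subset_univ _, j.2⟩
    · intro S hS; rfl
    · intro j _; rfl
    · intro S hS
      have hc := (Finset.mem_powersetCard.1 hS).2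
      simp only [MN, hf, dif_pos hc]
  have h3 : ∑ S ∈ P, ((if f S = c then (N : ℤ) else 0) - 1)
      = N * ((P.filter (fun S => f S = c)).card : ℤ) - P.card := by
    rw [Finset.sum_sub_distrib, ← Finset.sum_filter, Finset.sum_const, Finset.sum_const,
      nsmul_eq_mul, nsmul_eq_mul, mul_one, mul_comm]
  rw [h2, h3] at h1
  have hle : (P.filter (fun S => f S = c)).card ≤ P.card := Finset.card_filter_le _ _
  have h4 : |(N : ℤ) * ((P.filter (fun S => f S = c)).card : ℤ) - P.card| < Q := by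
    rw [hQ, hPc]
    rw [hPc] at hle
    have hle' : ((P.filter (fun S => f S = c)).card : ℤ) ≤ ((v - t).choose (k - t) : ℤ) := by
      exact_mod_cast hle
    have h5 : (1 : ℤ) ≤ N := by exact_mod_cast hN
    have h6 : (0 : ℤ) ≤ ((P.filter (fun S => f S = c)).card : ℤ) := by positivity
    have h7 : (0 : ℤ) ≤ ((v - t).choose (k - t) : ℤ) := by positivity
    rw [abs_lt]
    push_cast
    constructor
    · nlinarith
    · nlinarith
  have h5 := Int.eq_zero_of_abs_lt_dvd h1 h4
  have h6 : (Finset.powersetCard k (Finset.univ : Finset (Fin v))).filter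
      (fun B => f B = c ∧ T ⊆ B) = P.filter (fun S => f S = c) := by
    rw [hP, Finset.filter_filter]
    refine Finset.filter_congr fun S _ => ?_
    tauto
  rw [h6, ← hPc]
  have h8 : (N : ℤ) * ((P.filter (fun S => f S = c)).card : ℤ) = P.card := by linarith
  exact_mod_cast h8

lemma norm_avg_le (N : ℕ) (hN : 0 < N) (x : Fin N → ℝ) (c0 : Fin N) :
    ‖(∑ c, e (x c)) / (N : ℂ)‖
      ≤ Real.exp (-(8 / (N : ℝ) ^ 2 * ∑ c, ((x c - x c0) - round (x c - x c0)) ^ 2)) := by
  have hN' : (0 : ℝ) < N := by exact_mod_cast hN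
  have hsq : ‖(∑ c, e (x c))‖ ^ 2 = ∑ c, ∑ d, Real.cos (2 * Real.pi * (x c - x d)) := by
    rw [← Complex.normSq_eq_norm_sq, Complex.normSq_apply, Complex.re_sum, Complex.im_sum]
    simp only [e_re, e_im]
    rw [Finset.sum_mul_sum, Finset.sum_mul_sum, ← Finset.sum_add_distrib]
    refine Finset.sum_congr rfl fun c _ => ?_
    rw [← Finset.sum_add_distrib]
    refine Finset.sum_congr rfl fun d _ => ?_
    rw [mul_sub, Real.cos_sub]
  have h1 : ∑ c, ∑ d, Real.cos (2 * Real.pi * (x c - x d))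
      = (N : ℝ) ^ 2 - ∑ c, ∑ d, sv (x c - x d) := by
    have : ∀ c d : Fin N, Real.cos (2 * Real.pi * (x c - x d)) = 1 - sv (x c - x d) := by
      intro c d; unfold sv; ring
    simp_rw [this, Finset.sum_sub_distrib, Finset.sum_const, Finset.card_univ, Fintype.card_fin,
      nsmul_eq_mul, mul_one]
    ring
  -- lower bound for the double sum
  have hneg : ∀ a b : ℝ, sv (a - b) = sv (b - a) := by
    intro a b
    unfold sv
    have : 2 * Real.pi * (a - b) = -(2 * Real.pi * (b - a)) := by ring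
    rw [this, Real.cos_neg]
  have h2 : 2 * ∑ c, sv (x c - x c0) ≤ ∑ c, ∑ d, sv (x c - x d) := by
    have hs0 : sv (x c0 - x c0) = 0 := by unfold sv; simp
    have h3 : ∀ c, (if c = c0 then ∑ d, sv (x c0 - x d) else sv (x c - x c0))
        ≤ ∑ d, sv (x c - x d) := by
      intro c
      split_ifs with h
      · rw [h]
      · exact Finset.single_le_sum (f := fun d => sv (x c - x d)) (fun d _ => sv_nonneg _)
          (Finset.mem_univ c0)
    have h4 := Finset.sum_le_sum (s := Finset.univ) fun c _ => h3 c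
    refine le_trans (le_of_eq ?_) h4
    have h5 : ∀ c, (if c = c0 then ∑ d, sv (x c0 - x d) else sv (x c - x c0))
        = (if c = c0 then ∑ d, sv (x c0 - x d) else 0) + sv (x c - x c0) := by
      intro c
      split_ifs with h
      · rw [h, hs0, add_zero]
      · rw [zero_add]
    rw [Finset.sum_congr rfl (fun c _ => h5 c), Finset.sum_add_distrib, Finset.sum_ite_eq',
      if_pos (Finset.mem_univ _)]
    have h6 : ∑ d, sv (x c0 - x d) = ∑ c, sv (x c - x c0) :=
      Finset.sum_congr rfl fun d _ => hneg _ _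
    rw [h6]; ring
  have h3 : 8 * ∑ c, ((x c - x c0) - round (x c - x c0)) ^ 2 ≤ ∑ c, sv (x c - x c0) := by
    rw [Finset.mul_sum]
    exact Finset.sum_le_sum fun c _ => sv_lower _
  have h4 : ‖(∑ c, e (x c)) / (N : ℂ)‖ ^ 2
      ≤ (Real.exp (-(8 / (N : ℝ) ^ 2 * ∑ c, ((x c - x c0) - round (x c - x c0)) ^ 2))) ^ 2 := by
    rw [norm_div, div_pow, hsq, h1, Complex.norm_natCast, ← Real.exp_nat_mul]
    set Z := ∑ c, ((x c - x c0) - round (x c - x c0)) ^ 2 with hZ
    have h5 := Real.add_one_le_exp (((2 : ℕ) : ℝ) * -(8 / (N : ℝ) ^ 2 * Z))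
    refine le_trans ?_ h5
    rw [div_le_iff₀ (by positivity)]
    have h6 : (((2 : ℕ) : ℝ) * -(8 / (N : ℝ) ^ 2 * Z) + 1) * (N : ℝ) ^ 2
        = (N : ℝ) ^ 2 - 16 * Z := by
      push_cast
      field_simp
      ring
    rw [h6]
    linarith
  exact abs_le_of_sq_le_sq' h4 (Real.exp_pos _).le |>.2

/-- Product of complex numbers of small total argument has positive real part. -/
lemma prod_re_pos {J : Type*} (K : Finset J) (z : J → ℂ) (hre : ∀ j ∈ K, 1 / 2 ≤ (z j).re)
    (hsum : ∑ j ∈ K, |(z j).im| ≤ 1 / 4) : 0 < (∏ j ∈ K, z j).re := by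
  have hz : ∀ j ∈ K, z j = ((z j).re : ℂ) * (1 + ((((z j).im / (z j).re : ℝ) : ℂ) * Complex.I)) := by
    intro j hj
    have h1 : (z j).re ≠ 0 := by have := hre j hj; intro h; rw [h] at this; norm_num at this
    apply Complex.ext
    · simp
    · simp [mul_div_cancel₀ _ h1]
  rw [Finset.prod_congr rfl hz, Finset.prod_mul_distrib, ← Complex.ofReal_prod, Complex.re_ofReal_mul]
  have hpos : 0 < ∏ j ∈ K, (z j).re := Finset.prod_pos fun j hj => by have := hre j hj; linarith
  refine mul_pos hpos ?_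
  have h2 := Finset.norm_prod_one_add_sub_one_le K (fun j => ((((z j).im / (z j).re : ℝ) : ℂ) * Complex.I))
  have h3 : ∑ j ∈ K, ‖((((z j).im / (z j).re : ℝ) : ℂ) * Complex.I)‖ ≤ 1 / 2 := by
    calc ∑ j ∈ K, ‖((((z j).im / (z j).re : ℝ) : ℂ) * Complex.I)‖ ≤ ∑ j ∈ K, 2 * |(z j).im| := by
          refine Finset.sum_le_sum fun j hj => ?_
          rw [norm_mul, Complex.norm_I, mul_one, Complex.norm_real, Real.norm_eq_abs, abs_div]
          have := hre j hj
          have h4 : |(z j).re| = (z j).re := abs_of_nonneg (by linarith)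
          rw [h4, div_le_iff₀ (by linarith)]
          nlinarith [abs_nonneg (z j).im]
      _ = 2 * ∑ j ∈ K, |(z j).im| := by rw [Finset.mul_sum]
      _ ≤ 1 / 2 := by linarith
  have h5 : Real.exp (1 / 2) - 1 < 1 := by
    have h6 := Real.exp_one_lt_d9
    have h7 : Real.exp (1 / 2) ^ 2 = Real.exp 1 := by
      rw [← Real.exp_nat_mul]; norm_num
    have h8 := Real.exp_pos (1 / 2)
    nlinarith
  have h6 : ‖∏ j ∈ K, (1 + ((((z j).im / (z j).re : ℝ) : ℂ) * Complex.I)) - 1‖ < 1 := by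
    refine lt_of_le_of_lt h2 (lt_of_le_of_lt ?_ h5)
    have := Real.exp_le_exp.2 h3
    linarith
  have h7 := Complex.abs_re_le_norm (∏ j ∈ K, (1 + ((((z j).im / (z j).re : ℝ) : ℂ) * Complex.I)) - 1)
  rw [Complex.sub_re, Complex.one_re] at h7
  have h8 := neg_abs_le ((∏ j ∈ K, (1 + ((((z j).im / (z j).re : ℝ) : ℂ) * Complex.I))).re - 1)
  linarith

/-- The local factor near the trivial characters. -/
noncomputable def GN (N : ℕ) (ζ : Fin N → ℝ) : ℂ :=
  (∑ c, e (ζ c - (∑ d, ζ d) / N)) / (N : ℂ)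

lemma GN_bounds (N : ℕ) (hN : 0 < N) (ζ : Fin N → ℝ) (η : ℝ) (hη : η ≤ 1 / 16)
    (h : ∀ c, |ζ c| ≤ η) :
    1 / 2 ≤ (GN N ζ).re ∧ |(GN N ζ).im| ≤ 84 * η / N * ∑ c, ζ c ^ 2 := by
  have hN' : (0 : ℝ) < N := by exact_mod_cast hN
  have hη0 : 0 ≤ η := le_trans (abs_nonneg _) (h ⟨0, hN⟩)
  set m : ℝ := (∑ d, ζ d) / N with hm
  have hmb : |m| ≤ η := by
    rw [hm, abs_div, abs_of_pos hN', div_le_iff₀ hN']
    calc |∑ d, ζ d| ≤ ∑ d, |ζ d| := Finset.abs_sum_le_sum_abs _ _
      _ ≤ ∑ d : Fin N, η := Finset.sum_le_sum fun d _ => h d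
      _ = η * N := by rw [Finset.sum_const, Finset.card_univ, Fintype.card_fin, nsmul_eq_mul]; ring
  have hθ : ∀ c, |ζ c - m| ≤ 2 * η := by
    intro c
    calc |ζ c - m| ≤ |ζ c| + |m| := abs_sub _ _
      _ ≤ 2 * η := by linarith [h c]
  have hre : (GN N ζ).re = (∑ c, Real.cos (2 * Real.pi * (ζ c - m))) / N := by
    unfold GN
    rw [← hm]
    have : (N : ℂ) = ((N : ℝ) : ℂ) := by norm_cast
    rw [this, Complex.div_ofReal_re, Complex.re_sum]
    simp only [e_re]
  have him : (GN N ζ).im = (∑ c, Real.sin (2 * Real.pi * (ζ c - m))) / N := by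
    unfold GN
    rw [← hm]
    have : (N : ℂ) = ((N : ℝ) : ℂ) := by norm_cast
    rw [this, Complex.div_ofReal_im, Complex.im_sum]
    simp only [e_im]
  have hpi := Real.pi_pos
  have hpi2 := Real.pi_lt_d2
  constructor
  · rw [hre, le_div_iff₀ hN']
    have h1 : ∀ c : Fin N, (1 / 2 : ℝ) ≤ Real.cos (2 * Real.pi * (ζ c - m)) := by
      intro c
      have h2 : 1 - (2 * Real.pi * (ζ c - m)) ^ 2 / 2 ≤ Real.cos (2 * Real.pi * (ζ c - m)) :=
        Real.one_sub_sq_div_two_le_cos
      have h3 : (ζ c - m) ^ 2 ≤ (2 * η) ^ 2 := by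
        rw [← sq_abs (ζ c - m)]; exact pow_le_pow_left₀ (abs_nonneg _) (hθ c) 2
      have h4 : (2 * η) ^ 2 ≤ (1 / 8) ^ 2 := pow_le_pow_left₀ (by linarith) (by linarith) 2
      have h5 : Real.pi ^ 2 ≤ (3.15 : ℝ) ^ 2 := pow_le_pow_left₀ hpi.le hpi2.le 2
      have h6 : Real.pi ^ 2 * (ζ c - m) ^ 2 ≤ (3.15 : ℝ) ^ 2 * (1 / 8) ^ 2 :=
        mul_le_mul h5 (h3.trans h4) (sq_nonneg _) (by positivity)
      have h7 : (2 * Real.pi * (ζ c - m)) ^ 2 / 2 = 2 * (Real.pi ^ 2 * (ζ c - m) ^ 2) := by ring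
      rw [h7] at h2
      norm_num at h6
      linarith
    have h8 := Finset.sum_le_sum (s := Finset.univ) fun c _ => h1 c
    rw [Finset.sum_const, Finset.card_univ, Fintype.card_fin, nsmul_eq_mul] at h8
    linarith
  · rw [him, abs_div, abs_of_pos hN']
    have h1 : ∑ c, Real.sin (2 * Real.pi * (ζ c - m))
        = -∑ c, (2 * Real.pi * (ζ c - m) - Real.sin (2 * Real.pi * (ζ c - m))) := by
      rw [Finset.sum_sub_distrib, ← Finset.mul_sum, Finset.sum_sub_distrib, Finset.sum_const,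
        Finset.card_univ, Fintype.card_fin, nsmul_eq_mul, hm, mul_div_cancel₀ _ hN'.ne']
      ring
    have h2 : ∀ c, |2 * Real.pi * (ζ c - m) - Real.sin (2 * Real.pi * (ζ c - m))|
        ≤ 84 * η * (ζ c - m) ^ 2 := by
      intro c
      have h3 := Real.abs_sub_sin_le (2 * Real.pi * (ζ c - m))
      refine h3.trans ?_
      set p := ζ c - m with hp
      have h4 : |2 * Real.pi * p| ^ 3 / 6 = 8 * Real.pi ^ 3 / 6 * (|p| * p ^ 2) := by
        rw [abs_mul, abs_of_pos (by positivity : (0:ℝ) < 2 * Real.pi), ← sq_abs p]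
        ring
      rw [h4]
      have h5 : 8 * Real.pi ^ 3 / 6 ≤ 42 := by
        have h6 : Real.pi ^ 3 ≤ (3.15 : ℝ) ^ 3 := pow_le_pow_left₀ hpi.le hpi2.le 3
        norm_num at h6 ⊢
        linarith
      have h7 : |p| * p ^ 2 ≤ 2 * η * p ^ 2 := mul_le_mul_of_nonneg_right (hθ c) (sq_nonneg p)
      have h8 : 0 ≤ |p| * p ^ 2 := by positivity
      calc 8 * Real.pi ^ 3 / 6 * (|p| * p ^ 2) ≤ 42 * (|p| * p ^ 2) :=
            mul_le_mul_of_nonneg_right h5 h8
        _ ≤ 42 * (2 * η * p ^ 2) := by linarith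
        _ = 84 * η * p ^ 2 := by ring
    have h3 : ∑ c, (ζ c - m) ^ 2 ≤ ∑ c, ζ c ^ 2 := by
      have h4 : ∑ c, (ζ c - m) ^ 2 = ∑ c, ζ c ^ 2 - N * m ^ 2 := by
        have h5 : ∀ c, (ζ c - m) ^ 2 = ζ c ^ 2 - 2 * m * ζ c + m ^ 2 := fun c => by ring
        simp_rw [h5]
        rw [Finset.sum_add_distrib, Finset.sum_sub_distrib, ← Finset.mul_sum, Finset.sum_const,
          Finset.card_univ, Fintype.card_fin, nsmul_eq_mul]
        have h6 : ∑ d, ζ d = m * N := by rw [hm, div_mul_cancel₀ _ hN'.ne']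
        rw [h6]; ring
      rw [h4]
      have : 0 ≤ (N : ℝ) * m ^ 2 := by positivity
      linarith
    rw [h1, abs_neg, div_le_iff₀ hN']
    calc |∑ c, (2 * Real.pi * (ζ c - m) - Real.sin (2 * Real.pi * (ζ c - m)))|
        ≤ ∑ c, |2 * Real.pi * (ζ c - m) - Real.sin (2 * Real.pi * (ζ c - m))| :=
          Finset.abs_sum_le_sum_abs _ _
      _ ≤ ∑ c, 84 * η * (ζ c - m) ^ 2 := Finset.sum_le_sum fun c _ => h2 c
      _ = 84 * η * ∑ c, (ζ c - m) ^ 2 := by rw [Finset.mul_sum]
      _ ≤ 84 * η * ∑ c, ζ c ^ 2 := mul_le_mul_of_nonneg_left h3 (by positivity)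
      _ = (84 * η / N * ∑ c, ζ c ^ 2) * N := by field_simp

/-- Sum over subsets of size `k` as sum over a subtype. -/
lemma sum_sub {v k : ℕ} {B : Type*} [AddCommMonoid B] (F : Finset (Fin v) → B) :
    ∑ j : {S : Finset (Fin v) // S.card = k}, F j.1
      = ∑ S ∈ (univ : Finset (Fin v)).powersetCard k, F S := by
  symm
  refine Finset.sum_bij' (fun S hS => (⟨S, (Finset.mem_powersetCard.1 hS).2⟩ :
    {S : Finset (Fin v) // S.card = k})) (fun j _ => j.1) ?_ ?_ ?_ ?_ ?_
  · intro S hS; exact Finset.mem_univ _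
  · intro j _; rw [Finset.mem_powersetCard]; exact ⟨Finset.subset_univ _, j.2⟩
  · intro S hS; rfl
  · intro j _; rfl
  · intro S hS; rfl

lemma van_sum {v t k : ℕ} (g : {T : Finset (Fin v) // T.card = t} → ℝ) :
    Van (t + 1) k (univ : Finset (Fin v))
      (fun S => ∑ i : {T : Finset (Fin v) // T.card = t}, if i.1 ⊆ S then g i else 0) := by
  classical
  have h3 : ∀ S, (∑ i : {T : Finset (Fin v) // T.card = t}, if i.1 ⊆ S then g i else 0)
      = Sg (t + 1) (fun T => if h : T.card = t then g ⟨T, h⟩ else 0) S := by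
    intro S
    unfold Sg
    have h4 : ∑ i : {T : Finset (Fin v) // T.card = t}, (if i.1 ⊆ S then g i else 0)
        = ∑ T ∈ (univ : Finset (Finset (Fin v))).filter (fun T => T.card = t),
          (if T ⊆ S then (if h : T.card = t then g ⟨T, h⟩ else 0) else 0) := by
      symm
      refine Finset.sum_bij' (fun T hT => (⟨T, (Finset.mem_filter.1 hT).2⟩ :
        {T : Finset (Fin v) // T.card = t})) (fun i _ => i.1) ?_ ?_ ?_ ?_ ?_
      · intro T hT; exact Finset.mem_univ _
      · intro i _; rw [Finset.mem_filter]; exact ⟨Finset.mem_univ _, i.2⟩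
      · intro T hT; rfl
      · intro i _; rfl
      · intro T hT
        have hc := (Finset.mem_filter.1 hT).2
        simp only [dif_pos hc]
    rw [h4, Finset.sum_filter]
    have h5 : S.powerset = (univ : Finset (Finset (Fin v))).filter (fun T => T ⊆ S) := by
      ext T; simp
    rw [h5, Finset.sum_filter]
    refine Finset.sum_congr rfl fun T _ => ?_
    by_cases h6 : T.card = t
    · by_cases h7 : T ⊆ S
      · simp [h6, h7]
      · simp [h7]
    · simp [h6]
  exact Van.congr _ _ _ _ _ (fun S _ => (h3 S).symm) (Van.sg _ _ _ _)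

lemma van_map {v : ℕ} : ∀ (s k : ℕ) (V : Finset (Fin v)) (y : Finset (Fin v) → ℝ), Van s k V y →
    Van s k V (fun S => ((y S : ℝ) : UnitAddCircle))
  | 0, k, V, y, h => by
      intro S hS
      simp only
      rw [h S hS]; simp
  | _ + 1, 0, _, _, _ => trivial
  | s + 1, k + 1, V, y, h => by
      intro a ha b hb hab
      refine Van.congr _ _ _ _ _ ?_ (van_map s k _ _ (h a ha b hb hab))
      intro R _
      simp only
      rfl

/-- Large sets with `N` colours in the large range. -/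
theorem fourier_N (N t k v : ℕ) (hN : 1 ≤ N) (htk : t ≤ k) (hkv : k + t ≤ v)
    (par : ∀ i, i < t + 1 → N ∣ (v - i).choose (k - i))
    (ρ D : ℝ) (hρ : 0 ≤ ρ) (hD0 : 0 ≤ D) (hD : (k : ℝ) * ((v : ℝ) - k) ≤ D * v)
    (R : ℝ) (hR : R = (N : ℝ) ^ 2 / 8 * ((N * v.choose t : ℕ) *
      Real.log ((N : ℝ) * ((v - t).choose (k - t) : ℝ) + 1)))
    (h1 : 2 ^ t * R ≤ ρ ^ 2 * ((v - 2 * t).choose (k - t) : ℝ))
    (h2 : ρ * ∑ i ∈ Finset.range (t + 1), D ^ i < 1 / 2 ^ (t + 1))
    (h3 : ρ * ∑ i ∈ Finset.range (t + 1), D ^ i ≤ 1 / 16)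
    (h4 : 84 * (ρ * ∑ i ∈ Finset.range (t + 1), D ^ i) * R ≤ N / 4) :
    ∃ f : Finset (Fin v) → Fin N, ∀ c : Fin N, ∀ T : Finset (Fin v), T.card = t →
      N * ((Finset.powersetCard k (Finset.univ : Finset (Fin v))).filter
        (fun B => f B = c ∧ T ⊆ B)).card = (v - t).choose (k - t) := by
  classical
  by_contra hcon
  have hNr : (0 : ℝ) < N := by exact_mod_cast hN
  set Q : ℕ := N * (v - t).choose (k - t) + 1 with hQ
  have hQ0 : 0 < Q := Nat.succ_pos _
  have hQr : (0 : ℝ) < Q := by exact_mod_cast hQ0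
  have hF := fourier Q hQ0 (MN (v := v) N k t) (by
    intro g
    by_contra h
    push Not at h
    exact hcon (colour_of_choice N k t hN htk Q hQ g h))
  set J := {S : Finset (Fin v) // S.card = k} with hJ
  set I := {T : Finset (Fin v) // T.card = t} with hI
  set c0 : Fin N := ⟨0, hN⟩ with hc0
  set u : (I × Fin N → Fin Q) → Fin N → Finset (Fin v) → ℝ := fun τ d S =>
    ∑ i : I, if i.1 ⊆ S then ((τ (i, d) : ℕ) : ℝ) / Q else 0 with hu
  set x : (I × Fin N → Fin Q) → Fin N → Finset (Fin v) → ℝ := fun τ c S =>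
    N * u τ c S - ∑ d, u τ d S with hx
  set φ : (I × Fin N → Fin Q) → ℂ := fun τ =>
    ∏ j : J, ((∑ c, e (x τ c j.1)) / (N : ℂ)) with hφ
  have hloc : ∀ (τ : I × Fin N → Fin Q) (j : J) (c : Fin N),
      ∑ i, ((τ i : ℕ) : ℝ) * MN N k t j c i / Q = x τ c j.1 := by
    intro τ j c
    rw [Fintype.sum_prod_type, hx, hu]
    simp only
    rw [Finset.mul_sum, Finset.sum_comm (s := (univ : Finset (Fin N))), ← Finset.sum_sub_distrib]
    refine Finset.sum_congr rfl fun i _ => ?_
    unfold MN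
    by_cases h : i.1 ⊆ j.1
    · simp only [h, if_true]
      have : ∀ d : Fin N, ((τ (i, d) : ℕ) : ℝ) * (((if c = d then (N : ℤ) else 0) - 1 : ℤ) : ℝ) / Q
          = (if c = d then (N : ℝ) * (((τ (i, d) : ℕ) : ℝ) / Q) else 0) - ((τ (i, d) : ℕ) : ℝ) / Q := by
        intro d
        split_ifs
        · push_cast; ring
        · push_cast; ring
      rw [Finset.sum_congr rfl (fun d _ => this d), Finset.sum_sub_distrib, Finset.sum_ite_eq,
        if_pos (Finset.mem_univ _)]
    · simp [h]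
  have hF2 : ∑ τ, φ τ = 0 := by
    have h3 : ∀ τ : I × Fin N → Fin Q, ∏ j, ∑ c, e (∑ i, ((τ i : ℕ) : ℝ) * MN N k t j c i / Q)
        = (N : ℂ) ^ (Fintype.card J) * φ τ := by
      intro τ
      have hNc : (N : ℂ) ≠ 0 := by exact_mod_cast (by omega : N ≠ 0)
      rw [hφ]
      simp only
      rw [Finset.prod_div_distrib, Finset.prod_const, Finset.card_univ, mul_div_cancel₀ _
        (pow_ne_zero _ hNc)]
      refine Finset.prod_congr rfl fun j _ => Finset.sum_congr rfl fun c _ => ?_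
      rw [hloc τ j c]
    have hF3 : ∑ τ : I × Fin N → Fin Q, (N : ℂ) ^ (Fintype.card J) * φ τ = 0 := by
      refine Eq.trans ?_ hF
      exact Finset.sum_congr rfl fun τ _ => (h3 τ).symm
    rw [← Finset.mul_sum] at hF3
    rcases mul_eq_zero.1 hF3 with h4 | h4
    · exact absurd h4 (pow_ne_zero _ (by exact_mod_cast (by omega : N ≠ 0)))
    · exact h4
  have hcI : Fintype.card (I × Fin N) = N * v.choose t := by
    rw [Fintype.card_prod, Fintype.card_fin, mul_comm]
    congr 1
    exact (Fintype.card_finset_len t).trans (by rw [Fintype.card_fin])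
  have hlogQ : 0 ≤ Real.log (Q : ℝ) := Real.log_nonneg (by exact_mod_cast hQ0)
  have hRQ : R = (N : ℝ) ^ 2 / 8 * ((N * v.choose t : ℕ) * Real.log (Q : ℝ)) := by
    rw [hR, hQ]; push_cast; rfl
  have hR0 : 0 ≤ R := by rw [hRQ]; positivity
  refine sum_ne_zero_of_near φ (fun τ => ∑ j : J, ∑ c, ((x τ c j.1 - x τ c0 j.1)
      - round (x τ c j.1 - x τ c0 j.1)) ^ 2 ≤ R)
    (fun _ => ⟨0, hQ0⟩) ?_ ?_ (Real.exp (-(8 / (N : ℝ) ^ 2 * R))) (Real.exp_pos _) ?_ ?_ hF2
  · rw [hφ]; simp only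
    have hNc : (N : ℂ) ≠ 0 := by exact_mod_cast (by omega : N ≠ 0)
    refine Finset.prod_eq_one fun j _ => ?_
    have h5 : ∀ d, u (fun _ => ⟨0, hQ0⟩) d j.1 = 0 := by
      intro d
      rw [hu]; simp only
      refine Finset.sum_eq_zero fun i _ => ?_
      split_ifs <;> simp
    have h6 : ∀ c, x (fun _ => ⟨0, hQ0⟩) c j.1 = 0 := by
      intro c
      rw [hx]; simp only
      rw [Finset.sum_congr rfl (fun d _ => h5 d), h5 c]; simp
    rw [Finset.sum_congr rfl (fun c _ => by rw [h6 c, e_zero])]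
    rw [Finset.sum_const, Finset.card_univ, Fintype.card_fin, nsmul_eq_mul, mul_one,
      div_self hNc]
  · -- near
    intro τ hnear
    set z : Fin N → Finset (Fin v) → ℝ := fun c S => x τ c S - x τ c0 S with hz
    have hzu : ∀ c S, z c S = N * (u τ c S - u τ c0 S) := by
      intro c S; rw [hz, hx]; simp only; ring
    have hzvan : ∀ c, Van (t + 1) k (univ : Finset (Fin v)) (z c) := by
      intro c
      have h5 : ∀ S, z c S = ∑ i : I, if i.1 ⊆ S then
          ((N : ℝ) * (((τ (i, c) : ℕ) : ℝ) / Q - ((τ (i, c0) : ℕ) : ℝ) / Q)) else 0 := by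
        intro S
        rw [hzu, hu]; simp only
        rw [← Finset.sum_sub_distrib, Finset.mul_sum]
        refine Finset.sum_congr rfl fun i _ => ?_
        split_ifs
        · rfl
        · ring
      exact Van.congr _ _ _ _ _ (fun S _ => (h5 S).symm) (van_sum _)
    have hnr : ∀ y : ℝ, ‖(y : UnitAddCircle)‖ = |y - round y| := fun _ => UnitAddCircle.norm_eq
    obtain ⟨j0, rfl⟩ : ∃ j0, k = j0 + t := ⟨k - t, by omega⟩
    obtain ⟨n0, hn0⟩ : ∃ n0, v = n0 + 2 * t := ⟨v - 2 * t, by omega⟩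
    set η := ρ * ∑ i ∈ Finset.range (t + 1), D ^ i with hη
    have hη0 : 0 ≤ η := by rw [hη]; positivity
    have hsmall : ∀ c, ∀ S ∈ (univ : Finset (Fin v)).powersetCard (j0 + t),
        |z c S - round (z c S)| ≤ η := by
      intro c S hS
      have hs := spread2 ρ D hρ hD0 t n0 j0 (univ : Finset (Fin v))
        (fun S => ((z c S : ℝ) : UnitAddCircle)) R
        (by rw [Finset.card_univ, Fintype.card_fin, hn0])
        (by rw [Finset.card_univ, Fintype.card_fin]; exact hD) hR0 (van_map _ _ _ _ (hzvan c))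
        (by
          refine le_trans ?_ hnear
          rw [← sum_sub (fun S => ‖((z c S : ℝ) : UnitAddCircle)‖ ^ 2)]
          refine Finset.sum_le_sum fun j _ => ?_
          rw [hnr, sq_abs]
          exact Finset.single_le_sum (f := fun c => (z c j.1 - round (z c j.1)) ^ 2)
            (fun d _ => sq_nonneg _) (Finset.mem_univ c))
        (by
          have e1 : j0 + t - t = j0 := by omega
          have e2 : v - 2 * t = n0 := by omega
          rw [e1, e2] at h1
          exact h1) S hS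
      rw [hnr] at hs
      exact hs
    set n : Fin N → Finset (Fin v) → ℤ := fun c S => round (z c S) with hn
    set ζ : Fin N → Finset (Fin v) → ℝ := fun c S => z c S - n c S with hζ
    have hdvd : ∀ c, (N : ℤ) ∣ ∑ j : J, n c j.1 := by
      intro c
      have hNv : Van (t + 1) (j0 + t) (univ : Finset (Fin v)) (n c) := by
        refine round_van (t + 1) (j0 + t) univ (z c) _ (1 / 2 ^ (t + 1)) ?_ ?_ (hzvan c)
        · rw [mul_one_div_cancel]; positivity
        · intro S hS
          exact lt_of_le_of_lt (hsmall c S hS) h2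
      obtain ⟨cc, hcc⟩ := struct (t + 1) _ _ _ hNv
      rw [sum_sub (fun S => n c S), Finset.sum_congr rfl hcc]
      refine sum_Sg_dvd (t + 1) (j0 + t) N (univ : Finset (Fin v)) cc ?_
      intro i hi
      rw [Finset.card_univ, Fintype.card_fin]
      exact par i hi
    -- factorisation
    have hfac : ∀ j : J, (∑ c, e (x τ c j.1)) / (N : ℂ)
        = e (-((∑ d, (n d j.1 : ℝ)) / N)) * GN N (fun c => ζ c j.1) := by
      intro j
      have hx0 : x τ c0 j.1 = -((∑ d, z d j.1) / N) := by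
        have h5 : ∑ d, z d j.1 = N * (∑ d, u τ d j.1) - N * (N * u τ c0 j.1) := by
          rw [Finset.sum_congr rfl (fun d _ => hzu d j.1), ← Finset.mul_sum,
            Finset.sum_sub_distrib, Finset.sum_const, Finset.card_univ, Fintype.card_fin,
            nsmul_eq_mul]
          ring
        rw [h5, hx]; simp only
        field_simp
        ring
      unfold GN
      rw [← mul_div_assoc, Finset.mul_sum]
      congr 1
      refine Finset.sum_congr rfl fun c _ => ?_
      rw [← e_add]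
      have h6 : x τ c j.1 = (-((∑ d, (n d j.1 : ℝ)) / N)
          + (ζ c j.1 - (∑ d, ζ d j.1) / N)) + (n c j.1 : ℤ) := by
        have h7 : x τ c j.1 = z c j.1 + x τ c0 j.1 := by rw [hz]; simp only; ring
        have h8 : ∑ d, z d j.1 = ∑ d, (n d j.1 : ℝ) + ∑ d, ζ d j.1 := by
          rw [← Finset.sum_add_distrib]
          refine Finset.sum_congr rfl fun d _ => ?_
          rw [hζ]; simp only; ring
        have h9 : z c j.1 = ζ c j.1 + n c j.1 := by rw [hζ]; simp only; ring
        rw [h7, hx0, h8, h9]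
        ring
      rw [h6, e_add, e_int, mul_one]
    rw [hφ]
    simp only
    rw [Finset.prod_congr rfl (fun j _ => hfac j), Finset.prod_mul_distrib, ← e_sum]
    have hint : ∃ m : ℤ, ∑ j : J, -((∑ d, (n d j.1 : ℝ)) / N) = m := by
      choose m hm using hdvd
      refine ⟨-∑ d, m d, ?_⟩
      rw [Finset.sum_neg_distrib, ← Finset.sum_div, Finset.sum_comm]
      have h5 : ∀ d : Fin N, ∑ j : J, (n d j.1 : ℝ) = (N : ℝ) * m d := by
        intro d
        have := hm d
        have h6 : ((∑ j : J, n d j.1 : ℤ) : ℝ) = ((N * m d : ℤ) : ℝ) := by rw [this]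
        push_cast at h6
        exact h6
      rw [Finset.sum_congr rfl (fun d _ => h5 d), ← Finset.mul_sum]
      push_cast
      field_simp
    obtain ⟨m, hm⟩ := hint
    rw [hm, e_int, one_mul]
    have hζb : ∀ j : J, ∀ c, |ζ c j.1| ≤ η := by
      intro j c
      exact hsmall c j.1 (Finset.mem_powersetCard.2 ⟨Finset.subset_univ _, j.2⟩)
    have hGb := fun j : J => GN_bounds N hN (fun c => ζ c j.1) η h3 (hζb j)
    refine (prod_re_pos _ _ (fun j _ => (hGb j).1) ?_).le
    calc ∑ j : J, |(GN N fun c => ζ c j.1).im|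
        ≤ ∑ j : J, 84 * η / N * ∑ c, ζ c j.1 ^ 2 := Finset.sum_le_sum fun j _ => (hGb j).2
      _ = 84 * η / N * ∑ j : J, ∑ c, ζ c j.1 ^ 2 := by rw [Finset.mul_sum]
      _ ≤ 84 * η / N * R := mul_le_mul_of_nonneg_left hnear (by positivity)
      _ = (84 * η * R) / N := by ring
      _ ≤ (N / 4) / N := div_le_div_of_nonneg_right h4 hNr.le
      _ = 1 / 4 := by field_simp
  · -- far
    intro τ hfar
    push Not at hfar
    rw [hφ]; simp only
    rw [norm_prod]
    calc ∏ j : J, ‖(∑ c, e (x τ c j.1)) / (N : ℂ)‖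
        ≤ ∏ j : J, Real.exp (-(8 / (N : ℝ) ^ 2 * ∑ c, ((x τ c j.1 - x τ c0 j.1)
            - round (x τ c j.1 - x τ c0 j.1)) ^ 2)) :=
          Finset.prod_le_prod (fun _ _ => norm_nonneg _) (fun j _ =>
            norm_avg_le N hN (fun c => x τ c j.1) c0)
      _ = Real.exp (∑ j : J, -(8 / (N : ℝ) ^ 2 * ∑ c, ((x τ c j.1 - x τ c0 j.1)
            - round (x τ c j.1 - x τ c0 j.1)) ^ 2)) := by rw [Real.exp_sum]
      _ ≤ Real.exp (-(8 / (N : ℝ) ^ 2 * R)) := by
          apply Real.exp_le_exp.2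
          rw [Finset.sum_neg_distrib, ← Finset.mul_sum]
          have : 0 < 8 / (N : ℝ) ^ 2 := by positivity
          nlinarith
  · have h5 : Fintype.card (I × Fin N → Fin Q) = Q ^ (N * v.choose t) := by
      rw [Fintype.card_fun, Fintype.card_fin, hcI]
    rw [h5]
    push_cast
    have h6 : Real.exp (-(8 / (N : ℝ) ^ 2 * R)) = ((Q : ℝ) ^ (N * v.choose t))⁻¹ := by
      have h7 : -(8 / (N : ℝ) ^ 2 * R) = -((N * v.choose t : ℕ) * Real.log (Q : ℝ)) := by
        rw [hRQ]; field_simp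
      rw [h7, Real.exp_neg, Real.exp_nat_mul, Real.exp_log hQr]
    rw [h6, mul_inv_cancel₀ (by positivity)]

end Pool.Agent.Helper456.HD
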