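import Mathlib
import Pool.Agent.Helper456.HC.Basic
import Pool.Agent.Helper456.HC.Main
import Pool.Agent.Helper456.HD.MainN
import Pool.Agent.Helper456.HD.Main2
import Pool.Agent.Helper456.HD.Asym

set_option autoImplicit false

namespace Pool.Agent.Helper456.HD

open Finset Pool.Agent.Helper456.HC

/-- Common preparations. -/
lemma prep (t k v m : ℕ) (ht : t ≤ m) (hkv : k ≤ v) (hm : m = k ∨ m = v - k) (hmv : m ≤ v) :
    (k : ℝ) * ((v : ℝ) - k) ≤ (m : ℝ) * v ∧
    ((v - 2 * t).choose (k - t) = (v - 2 * t).choose (m - t) ∨ ¬ (t ≤ k ∧ k + t ≤ v)) ∧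
    ((v - t).choose (k - t) ≤ v ^ m ∨ ¬ (t ≤ k)) := by
  have hvk : (v : ℝ) - k = ((v - k : ℕ) : ℝ) := by rw [Nat.cast_sub hkv]
  refine ⟨?_, ?_, ?_⟩
  · rw [hvk]
    rcases hm with rfl | rfl
    · exact mul_le_mul_of_nonneg_left (by exact_mod_cast Nat.sub_le _ _) (by positivity)
    · rw [mul_comm]
      exact mul_le_mul_of_nonneg_left (by exact_mod_cast hkv) (by positivity)
  · rcases hm with rfl | rfl
    · exact Or.inl rfl
    · by_cases h : t ≤ k ∧ k + t ≤ v
      · left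
        rw [← Nat.choose_symm (by omega : k - t ≤ v - 2 * t)]
        congr 1; omega
      · exact Or.inr h
  · by_cases h : t ≤ k
    · left
      rcases hm with rfl | rfl
      · calc (v - t).choose (m - t) ≤ (v - t) ^ (m - t) := Nat.choose_le_pow _ _
          _ ≤ v ^ (m - t) := Nat.pow_le_pow_left (Nat.sub_le _ _) _
          _ ≤ v ^ m := by
            rcases Nat.eq_zero_or_pos v with h0 | h0
            · have : m = 0 := by omega
              subst this; simp
            · exact Nat.pow_le_pow_right h0 (Nat.sub_le _ _)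
      · have : (v - t).choose (k - t) = (v - t).choose (v - k) := by
          rw [← Nat.choose_symm (by omega : k - t ≤ v - t)]
          congr 1; omega
        rw [this]
        exact (Nat.choose_le_pow _ _).trans (Nat.pow_le_pow_left (Nat.sub_le _ _) _)
    · exact Or.inr h

/-- Large sets with any number `N` of colours, for all large `v` and all `k` in the central
range. -/
theorem asymN (N t : ℕ) (hN : 1 ≤ N) : ∃ v0 : ℕ, ∀ v ≥ v0, ∀ k : ℕ, 4 * t + 1 ≤ k →
    k + 4 * t + 1 ≤ v → (∀ i, i ≤ t → N ∣ (v - i).choose (k - i)) →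
    ∃ f : Finset (Fin v) → Fin N, ∀ c : Fin N, ∀ T : Finset (Fin v), T.card = t →
      N * ((Finset.powersetCard k (Finset.univ : Finset (Fin v))).filter
        (fun B => f B = c ∧ T ⊆ B)).card = (v - t).choose (k - t) := by
  have hNr : (1 : ℝ) ≤ N := by exact_mod_cast hN
  set K : ℝ := 2 ^ t * ((t : ℝ) + 1) ^ 2 * (340 + 2 ^ (t + 6)) ^ 2 * (N : ℝ) ^ 9 with hK
  have hK0 : 0 ≤ K := by rw [hK]; positivity
  obtain ⟨v0, hv0⟩ := choose_large t (2 * t + 3) (3 * t) 3 K hK0
  refine ⟨v0 + N + 3, fun v hv k hk hkv hdiv => ?_⟩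
  obtain ⟨m, hm, hm1, hm2⟩ : ∃ m, (m = k ∨ m = v - k) ∧ 4 * t + 1 ≤ m ∧ 2 * m ≤ v := by
    rcases Nat.le_total (2 * k) v with h | h
    · exact ⟨k, Or.inl rfl, hk, h⟩
    · exact ⟨v - k, Or.inr rfl, by omega, by omega⟩
  obtain ⟨p1, p2, p3⟩ := prep t k v m (by omega) (by omega) hm (by omega)
  have p2' := p2.resolve_right (by simp; omega)
  have p3' := p3.resolve_right (by simp; omega)
  have hbig := hv0 v (by omega) m (by omega) hm2
  rw [← p2'] at hbig
  have hvr : (3 : ℝ) ≤ v := by exact_mod_cast (by omega : 3 ≤ v)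
  have hmr : (1 : ℝ) ≤ m := by exact_mod_cast (by omega : 1 ≤ m)
  set L := Real.log (v : ℝ) with hL
  have hL1 : 1 ≤ L := by
    rw [hL, Real.le_log_iff_exp_le (by linarith)]
    have := Real.exp_one_lt_d9
    linarith
  set R : ℝ := (N : ℝ) ^ 2 / 8 * ((N * v.choose t : ℕ) *
      Real.log ((N : ℝ) * ((v - t).choose (k - t) : ℝ) + 1)) with hR
  set R' : ℝ := (N : ℝ) ^ 3 * (v : ℝ) ^ t * m * L with hR'
  have hvt1 : (1 : ℝ) ≤ (v : ℝ) ^ t := one_le_pow₀ (by linarith)
  have hR'1 : 1 ≤ R' := by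
    rw [hR']
    have h1 : (1 : ℝ) ≤ (N : ℝ) ^ 3 := one_le_pow₀ hNr
    calc (1 : ℝ) = 1 * 1 * 1 * 1 := by norm_num
      _ ≤ (N : ℝ) ^ 3 * (v : ℝ) ^ t * m * L := by gcongr
  have hRR' : R ≤ R' := by
    have h1 : ((N * v.choose t : ℕ) : ℝ) ≤ N * (v : ℝ) ^ t := by
      push_cast
      refine mul_le_mul_of_nonneg_left ?_ (by positivity)
      exact_mod_cast Nat.choose_le_pow v t
    have h2 : Real.log ((N : ℝ) * ((v - t).choose (k - t) : ℝ) + 1) ≤ 2 * m * L := by
      have h3 : (N : ℝ) * ((v - t).choose (k - t) : ℝ) + 1 ≤ (v : ℝ) ^ (m + 1) := by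
        have h4 : N * (v - t).choose (k - t) + 1 ≤ v ^ (m + 1) := by
          have h5 : 1 ≤ v ^ m := Nat.one_le_pow _ _ (by omega)
          calc N * (v - t).choose (k - t) + 1 ≤ N * v ^ m + v ^ m :=
                Nat.add_le_add (Nat.mul_le_mul_left _ p3') h5
            _ = (N + 1) * v ^ m := by ring
            _ ≤ v * v ^ m := Nat.mul_le_mul_right _ (by omega)
            _ = v ^ (m + 1) := by ring
        exact_mod_cast h4
      calc Real.log ((N : ℝ) * ((v - t).choose (k - t) : ℝ) + 1)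
          ≤ Real.log ((v : ℝ) ^ (m + 1)) := Real.log_le_log (by positivity) h3
        _ = ((m + 1 : ℕ) : ℝ) * L := by rw [Real.log_pow, hL]
        _ ≤ 2 * m * L := by
            refine mul_le_mul_of_nonneg_right ?_ (by linarith)
            push_cast; linarith
    have h6 : 0 ≤ Real.log ((N : ℝ) * ((v - t).choose (k - t) : ℝ) + 1) :=
      Real.log_nonneg (by have : (0 : ℝ) ≤ (N : ℝ) * ((v - t).choose (k - t) : ℝ) := by positivity
                          linarith)
    calc R ≤ (N : ℝ) ^ 2 / 8 * ((N * (v : ℝ) ^ t) * (2 * m * L)) := by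
          rw [hR]
          refine mul_le_mul_of_nonneg_left ?_ (by positivity)
          exact mul_le_mul h1 h2 h6 (by positivity)
      _ = (1 / 4) * R' := by rw [hR']; ring
      _ ≤ R' := by linarith
  have hR0 : 0 ≤ R := by
    rw [hR]
    have h6 : 0 ≤ Real.log ((N : ℝ) * ((v - t).choose (k - t) : ℝ) + 1) :=
      Real.log_nonneg (by have : (0 : ℝ) ≤ (N : ℝ) * ((v - t).choose (k - t) : ℝ) := by positivity
                          linarith)
    positivity
  have hCpos : (0 : ℝ) < ((v - 2 * t).choose (k - t) : ℝ) := by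
    have : 0 < (v - 2 * t).choose (k - t) := Nat.choose_pos (by omega)
    exact_mod_cast this
  set C : ℝ := ((v - 2 * t).choose (k - t) : ℝ) with hC
  set ρ : ℝ := Real.sqrt (2 ^ t * R / C) with hρ
  have hρ2 : ρ ^ 2 = 2 ^ t * R / C := Real.sq_sqrt (by positivity)
  have hρ0 : 0 ≤ ρ := Real.sqrt_nonneg _
  set η : ℝ := ρ * ∑ i ∈ Finset.range (t + 1), (m : ℝ) ^ i with hη
  have hη0 : 0 ≤ η := by rw [hη]; positivity
  have hηle : η ≤ ρ * ((t + 1) * (m : ℝ) ^ t) := by
    rw [hη]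
    refine mul_le_mul_of_nonneg_left ?_ hρ0
    calc ∑ i ∈ Finset.range (t + 1), (m : ℝ) ^ i ≤ ∑ i ∈ Finset.range (t + 1), (m : ℝ) ^ t := by
          refine Finset.sum_le_sum fun i hi => ?_
          rw [Finset.mem_range] at hi
          exact pow_le_pow_right₀ hmr (by omega)
      _ = (t + 1) * (m : ℝ) ^ t := by
          rw [Finset.sum_const, Finset.card_range, nsmul_eq_mul]; push_cast; ring
  -- the key inequality
  have hX : η * (340 * R' + 2 ^ (t + 6)) ≤ 1 := by
    have h1 : 340 * R' + 2 ^ (t + 6) ≤ (340 + 2 ^ (t + 6)) * R' := by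
      have : (0 : ℝ) ≤ 2 ^ (t + 6) := by positivity
      nlinarith
    have h2 : (η * (340 * R' + 2 ^ (t + 6))) ^ 2 ≤ 1 ^ 2 := by
      calc (η * (340 * R' + 2 ^ (t + 6))) ^ 2
          ≤ (ρ * ((t + 1) * (m : ℝ) ^ t) * ((340 + 2 ^ (t + 6)) * R')) ^ 2 := by
            refine pow_le_pow_left₀ (by positivity) ?_ 2
            exact mul_le_mul hηle h1 (by positivity) (by positivity)
        _ = ρ ^ 2 * (((t : ℝ) + 1) ^ 2 * (340 + 2 ^ (t + 6)) ^ 2 * (m : ℝ) ^ (2 * t) * R' ^ 2) := by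
            ring
        _ ≤ (2 ^ t * R' / C) * (((t : ℝ) + 1) ^ 2 * (340 + 2 ^ (t + 6)) ^ 2
              * (m : ℝ) ^ (2 * t) * R' ^ 2) := by
            refine mul_le_mul_of_nonneg_right ?_ (by positivity)
            rw [hρ2]
            refine div_le_div_of_nonneg_right ?_ hCpos.le
            exact mul_le_mul_of_nonneg_left hRR' (by positivity)
        _ = (K * (m : ℝ) ^ (2 * t + 3) * (v : ℝ) ^ (3 * t) * L ^ 3) / C := by
            rw [hK, hR']; ring
        _ ≤ 1 ^ 2 := by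
            rw [div_le_iff₀ hCpos]
            linarith
    exact (abs_le_of_sq_le_sq' h2 (by norm_num)).2
  have hX' : η * (340 * R') + η * 2 ^ (t + 6) ≤ 1 := by rw [← mul_add]; exact hX
  have hR'0 : 0 ≤ R' := by linarith
  have hη340 : 0 ≤ η * (340 * R') := mul_nonneg hη0 (mul_nonneg (by norm_num) hR'0)
  have hηp : 0 ≤ η * 2 ^ (t + 6) := by positivity
  have hη6 : η * 2 ^ (t + 6) ≤ 1 := by linarith
  refine fourier_N N t k v hN (by omega) (by omega) (fun i hi => hdiv i (by omega)) ρ m hρ0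
    (by positivity) p1 R hR ?_ ?_ ?_ ?_
  · rw [hρ2, ← hC, div_mul_cancel₀ _ hCpos.ne']
  · rw [← hη, lt_div_iff₀ (by positivity)]
    have h3 : (2 : ℝ) ^ (t + 6) = 32 * 2 ^ (t + 1) := by ring
    rw [h3] at hη6 hηp
    have h4 : η * (32 * 2 ^ (t + 1)) = 32 * (η * 2 ^ (t + 1)) := by ring
    rw [h4] at hη6 hηp
    linarith
  · rw [← hη]
    have h3 : (64 : ℝ) ≤ 2 ^ (t + 6) := by
      have : (2 : ℝ) ^ (t + 6) = 64 * 2 ^ t := by ring
      rw [this]
      have : (1 : ℝ) ≤ 2 ^ t := one_le_pow₀ (by norm_num)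
      linarith
    have h4 : η * 64 ≤ η * 2 ^ (t + 6) := mul_le_mul_of_nonneg_left h3 hη0
    linarith
  · rw [← hη]
    have h4 : η * (340 * R') ≤ 1 := by linarith
    have h5 : η * R ≤ η * R' := mul_le_mul_of_nonneg_left hRR' hη0
    have h6 : η * (340 * R') = 340 * (η * R') := by ring
    have h7 : 84 * η * R = 84 * (η * R) := by ring
    rw [h6] at h4
    rw [h7]
    linarith

/-- Halvings for all large `v` and all `k` in a larger central range. -/
theorem asym2 (t : ℕ) : ∃ v0 : ℕ, ∀ v ≥ v0, ∀ k : ℕ, 2 * t + 1 ≤ k →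
    k + 2 * t + 1 ≤ v → (∀ i, i ≤ t → 2 ∣ (v - i).choose (k - i)) → LS (t + 1) k v := by
  set K : ℝ := 2 ^ t * ((t : ℝ) + 1) ^ 2 * (2 ^ (t + 2)) ^ 2 with hK
  have hK0 : 0 ≤ K := by rw [hK]; positivity
  obtain ⟨v0, hv0⟩ := choose_large t (2 * t + 1) t 1 K hK0
  refine ⟨v0 + 3, fun v hv k hk hkv hdiv => ?_⟩
  obtain ⟨m, hm, hm1, hm2⟩ : ∃ m, (m = k ∨ m = v - k) ∧ 2 * t + 1 ≤ m ∧ 2 * m ≤ v := by
    rcases Nat.le_total (2 * k) v with h | h
    · exact ⟨k, Or.inl rfl, hk, h⟩
    · exact ⟨v - k, Or.inr rfl, by omega, by omega⟩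
  obtain ⟨p1, p2, p3⟩ := prep t k v m (by omega) (by omega) hm (by omega)
  have p2' := p2.resolve_right (by simp; omega)
  have p3' := p3.resolve_right (by simp; omega)
  have hbig := hv0 v (by omega) m (by omega) hm2
  rw [← p2'] at hbig
  have hvr : (3 : ℝ) ≤ v := by exact_mod_cast (by omega : 3 ≤ v)
  have hmr : (1 : ℝ) ≤ m := by exact_mod_cast (by omega : 1 ≤ m)
  set L := Real.log (v : ℝ) with hL
  have hL1 : 1 ≤ L := by
    rw [hL, Real.le_log_iff_exp_le (by linarith)]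
    have := Real.exp_one_lt_d9
    linarith
  set R : ℝ := (v.choose t : ℝ) * Real.log (((v - t).choose (k - t) : ℝ) + 1) / 2 with hR
  set R' : ℝ := (v : ℝ) ^ t * m * L with hR'
  have hRR' : R ≤ R' := by
    have h1 : (v.choose t : ℝ) ≤ (v : ℝ) ^ t := by exact_mod_cast Nat.choose_le_pow v t
    have h2 : Real.log (((v - t).choose (k - t) : ℝ) + 1) ≤ 2 * m * L := by
      have h3 : ((v - t).choose (k - t) : ℝ) + 1 ≤ (v : ℝ) ^ (m + 1) := by
        have h4 : (v - t).choose (k - t) + 1 ≤ v ^ (m + 1) := by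
          have h5 : 1 ≤ v ^ m := Nat.one_le_pow _ _ (by omega)
          calc (v - t).choose (k - t) + 1 ≤ v ^ m + v ^ m := Nat.add_le_add p3' h5
            _ = 2 * v ^ m := by ring
            _ ≤ v * v ^ m := Nat.mul_le_mul_right _ (by omega)
            _ = v ^ (m + 1) := by ring
        exact_mod_cast h4
      calc Real.log (((v - t).choose (k - t) : ℝ) + 1)
          ≤ Real.log ((v : ℝ) ^ (m + 1)) := Real.log_le_log (by positivity) h3
        _ = ((m + 1 : ℕ) : ℝ) * L := by rw [Real.log_pow, hL]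
        _ ≤ 2 * m * L := by
            refine mul_le_mul_of_nonneg_right ?_ (by linarith)
            push_cast; linarith
    have h6 : 0 ≤ Real.log (((v - t).choose (k - t) : ℝ) + 1) :=
      Real.log_nonneg (by have : (0 : ℝ) ≤ ((v - t).choose (k - t) : ℝ) := by positivity
                          linarith)
    calc R ≤ (v : ℝ) ^ t * (2 * m * L) / 2 := by
          rw [hR]
          refine div_le_div_of_nonneg_right ?_ (by norm_num)
          exact mul_le_mul h1 h2 h6 (by positivity)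
      _ = R' := by rw [hR']; ring
  have hR0 : 0 ≤ R := by
    rw [hR]
    have h6 : 0 ≤ Real.log (((v - t).choose (k - t) : ℝ) + 1) :=
      Real.log_nonneg (by have : (0 : ℝ) ≤ ((v - t).choose (k - t) : ℝ) := by positivity
                          linarith)
    positivity
  have hCpos : (0 : ℝ) < ((v - 2 * t).choose (k - t) : ℝ) := by
    have : 0 < (v - 2 * t).choose (k - t) := Nat.choose_pos (by omega)
    exact_mod_cast this
  set C : ℝ := ((v - 2 * t).choose (k - t) : ℝ) with hC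
  set ρ : ℝ := Real.sqrt (2 ^ t * R / C) with hρ
  have hρ2 : ρ ^ 2 = 2 ^ t * R / C := Real.sq_sqrt (by positivity)
  have hρ0 : 0 ≤ ρ := Real.sqrt_nonneg _
  set η : ℝ := ρ * ∑ i ∈ Finset.range (t + 1), (m : ℝ) ^ i with hη
  have hη0 : 0 ≤ η := by rw [hη]; positivity
  have hηle : η ≤ ρ * ((t + 1) * (m : ℝ) ^ t) := by
    rw [hη]
    refine mul_le_mul_of_nonneg_left ?_ hρ0
    calc ∑ i ∈ Finset.range (t + 1), (m : ℝ) ^ i ≤ ∑ i ∈ Finset.range (t + 1), (m : ℝ) ^ t := by
          refine Finset.sum_le_sum fun i hi => ?_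
          rw [Finset.mem_range] at hi
          exact pow_le_pow_right₀ hmr (by omega)
      _ = (t + 1) * (m : ℝ) ^ t := by
          rw [Finset.sum_const, Finset.card_range, nsmul_eq_mul]; push_cast; ring
  have hX : η * 2 ^ (t + 2) ≤ 1 := by
    have h2 : (η * 2 ^ (t + 2)) ^ 2 ≤ 1 ^ 2 := by
      calc (η * 2 ^ (t + 2)) ^ 2
          ≤ (ρ * ((t + 1) * (m : ℝ) ^ t) * 2 ^ (t + 2)) ^ 2 := by
            refine pow_le_pow_left₀ (by positivity) ?_ 2
            exact mul_le_mul_of_nonneg_right hηle (by positivity)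
        _ = ρ ^ 2 * (((t : ℝ) + 1) ^ 2 * (2 ^ (t + 2)) ^ 2 * (m : ℝ) ^ (2 * t)) := by
            ring
        _ ≤ (2 ^ t * R' / C) * (((t : ℝ) + 1) ^ 2 * (2 ^ (t + 2)) ^ 2 * (m : ℝ) ^ (2 * t)) := by
            refine mul_le_mul_of_nonneg_right ?_ (by positivity)
            rw [hρ2]
            refine div_le_div_of_nonneg_right ?_ hCpos.le
            exact mul_le_mul_of_nonneg_left hRR' (by positivity)
        _ = (K * (m : ℝ) ^ (2 * t + 1) * (v : ℝ) ^ t * L ^ 1) / C := by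
            rw [hK, hR']; ring
        _ ≤ 1 ^ 2 := by
            rw [div_le_iff₀ hCpos]
            linarith
    exact (abs_le_of_sq_le_sq' h2 (by norm_num)).2
  refine fourier_LS2 t k v (by omega) (by omega) (fun i hi => hdiv i (by omega)) ρ m hρ0
    (by positivity) p1 ?_ ?_
  · rw [hρ2, ← hC, ← hR, div_mul_cancel₀ _ hCpos.ne']
  · rw [← hη, lt_div_iff₀ (by positivity)]
    have h3 : (2 : ℝ) ^ (t + 2) = 2 * 2 ^ (t + 1) := by ring
    rw [h3] at hX
    have : 0 ≤ η * 2 ^ (t + 1) := by positivity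
    nlinarith

end Pool.Agent.Helper456.HD
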